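import Pool.Agent.Helper20.IIC.All

/-!
# The incipient infinite cluster of the FK-Ising model from the supercritical side

For every `d ≥ 2`: the infinite volume FK-Ising measures `φ β` on `ℤ^d` exist, the critical
parameter is positive (and finite), and there is a probability measure `φinf` such that for every
cylinder event `E` both
`lim_{|x| → ∞} φ_{β_c}[E | 0 ↔ x]` and `lim_{β ↓ β_c} φ_β[E | 0 ↔ ∞]` exist and are equal to
`φinf[E]`.
-/

set_option autoImplicit false

open Filter Topology MeasureTheory
open scoped BigOperators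

namespace Pool.Agent.Results.MP_084621_pr.SupercriticalIIC

/-- The nearest neighbour graph of `ℤ^d`. -/
def Lattice (d : ℕ) : SimpleGraph (Fin d → ℤ) where
  Adj x y := ∑ i, |x i - y i| = 1
  symm := ⟨by
    intro x y h
    rw [← h]
    exact Finset.sum_congr rfl fun i _ => abs_sub_comm _ _⟩
  loopless := ⟨by
    intro x h
    simp at h⟩

/-- The nearest neighbour edges. -/
abbrev Edge (d : ℕ) := ↥(Lattice d).edgeSet

/-- Configurations: `ω e = true` means that the edge `e` is open. -/
abbrev Config (d : ℕ) := Edge d → Bool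

variable {d : ℕ}

/-- `x` and `y` are joined by a path of open edges of `ω`. -/
def Joined (ω : Config d) (x y : Fin d → ℤ) : Prop :=
  Relation.ReflTransGen (fun x y => ∃ e : Edge d, ω e = true ∧ (e : Sym2 (Fin d → ℤ)) = s(x, y)) x y

/-- The event `x ↔ y`. -/
def Conn (x y : Fin d → ℤ) : Set (Config d) := {ω | Joined ω x y}

/-- The event `x ↔ ∞`: the cluster of `x` is infinite. -/
def ConnInf (x : Fin d → ℤ) : Set (Config d) := {ω | {y | Joined ω x y}.Infinite}

/-- Cylinder events: they depend on finitely many edges. -/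
def IsCylinder (A : Set (Config d)) : Prop :=
  ∃ F : Finset (Edge d), ∀ ω ω' : Config d, (∀ e ∈ F, ω e = ω' e) → (ω ∈ A ↔ ω' ∈ A)

/-- The edges with both endpoints in `V`. -/
noncomputable def edgesIn (V : Finset (Fin d → ℤ)) : Finset (Edge d) := by
  classical exact (V.sym2.subtype (fun e => e ∈ (Lattice d).edgeSet))

/-- The configuration whose open edges in `Λ` are those of `T` and which is `ξ` off `Λ`. -/
noncomputable def glue (ξ : Config d) (Λ T : Finset (Edge d)) : Config d := by
  classical exact fun e => if e ∈ Λ then decide (e ∈ T) else ξ e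

/-- `k^ξ(ω)`: the number of connected components of `(ℤ^d, ω ∨ ξ)` that meet `V`, where `ω` is the
configuration on the edges inside `V` whose open edges are those of `T`. -/
noncomputable def numClusters (ξ : Config d) (V : Finset (Fin d → ℤ)) (T : Finset (Edge d)) : ℕ :=
  Set.ncard {C : Set (Fin d → ℤ) | ∃ x ∈ V, C = {y | Joined (glue ξ (edgesIn V) T) x y}}

/-- The FK-Ising probability `φ^ξ_{G,β}[A]`, `G` the subgraph induced by `V`. -/
noncomputable def fkProb (ξ : Config d) (β : ℝ) (V : Finset (Fin d → ℤ)) (A : Set (Config d)) : ℝ :=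
  (∑ T ∈ (edgesIn V).powerset,
      A.indicator (fun _ => (Real.exp (2 * β) - 1) ^ T.card * 2 ^ numClusters ξ V T)
        (glue ξ (edgesIn V) T)) /
    ∑ T ∈ (edgesIn V).powerset, (Real.exp (2 * β) - 1) ^ T.card * 2 ^ numClusters ξ V T

/-- `φ β` is the infinite volume FK-Ising measure: the weak limit, as the finite graph increases to
`ℤ^d`, of the measures with boundary condition `ξ ≡ 1`. -/
def IsFKIsing (d : ℕ) (φ : ℝ → Measure (Config d)) : Prop :=
  ∀ β : ℝ, 0 ≤ β → IsProbabilityMeasure (φ β) ∧
    ∀ A : Set (Config d), IsCylinder A →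
      Tendsto (fun V : Finset (Fin d → ℤ) => fkProb (fun _ => true) β V A) atTop
        (𝓝 ((φ β).real A))

/-- The critical parameter `β_c = inf {β ≥ 0 : φ_β[0 ↔ ∞] > 0}`. -/
noncomputable def betac (φ : ℝ → Measure (Config d)) : ℝ :=
  sInf {β : ℝ | 0 ≤ β ∧ 0 < (φ β).real (ConnInf 0)}

/-- Both constructions of the incipient infinite cluster exist and agree. -/
theorem result : ∀ d : ℕ, 2 ≤ d → (∃ φ : ℝ → Measure (Config d), IsFKIsing d φ) ∧
    ∀ φ : ℝ → Measure (Config d), IsFKIsing d φ →
      0 < betac φ ∧ (∀ β, betac φ < β → 0 < (φ β).real (ConnInf 0)) ∧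
      (∀ β, 0 ≤ β → β < betac φ → (φ β).real (ConnInf 0) = 0) ∧
      ∃ φinf : Measure (Config d), IsProbabilityMeasure φinf ∧
        ∀ E : Set (Config d), IsCylinder E →
          Tendsto (fun x : Fin d → ℤ => (φ (betac φ)).real (E ∩ Conn 0 x) /
            (φ (betac φ)).real (Conn 0 x)) cofinite (𝓝 (φinf.real E)) ∧
          Tendsto (fun β => (φ β).real (E ∩ ConnInf 0) / (φ β).real (ConnInf 0))
            (𝓝[>] (betac φ)) (𝓝 (φinf.real E)) :=
  IIC.final

end Pool.Agent.Results.MP_084621_pr.SupercriticalIIC
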